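import Pool.Agent.Run7.h537.FL.Front
import Pool.Agent.H984R4.HN.HPDefs

/-! The frontier of the half-plane cluster. -/

set_option autoImplicit false

namespace Run7.h537.HF

open H974 H12S Finset H984P H984N H342P H984H
open Run7.h537.FL

/-- the box `[-n, n] × [0, n]` -/
noncomputable def bxN (n : ℕ) : Finset Vtx := Finset.Icc (-(n : ℤ)) n ×ˢ Finset.Icc (0 : ℤ) n

theorem mem_bxN {n : ℕ} {v : Vtx} : v ∈ bxN n ↔ (-(n : ℤ) ≤ v.1 ∧ v.1 ≤ n) ∧ 0 ≤ v.2 ∧ v.2 ≤ n := by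
  unfold bxN
  rw [Finset.mem_product, Finset.mem_Icc, Finset.mem_Icc]

/-- the cluster of the negative half-axis -/
def Cm (ω : Conf) : Set Vtx := KW {((0 : ℤ), (0 : ℤ))} (opn ω)

/-- below the negative half-axis -/
def Oh : Set Vtx := {v | v.2 < 0 ∧ v.1 ≤ 0}

/-- below the positive half-axis -/
def Qh : Set Vtx := {q | q.2 < 0 ∧ 0 < q.1}

open Classical in
/-- the number of frontier vertices in `[-n, n] × [0, n]` -/
noncomputable def Nf (n : ℕ) (ω : Conf) : ℝ :=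
  ((((bxN n).filter (fun w => AccS (Cm ω) (Cm ω ∪ Oh) Qh w)).card : ℕ) : ℝ)

theorem Nf_nonneg (n : ℕ) (ω : Conf) : 0 ≤ Nf n ω := Nat.cast_nonneg _

theorem Nf_mono {n n' : ℕ} (h : n ≤ n') (ω : Conf) : Nf n ω ≤ Nf n' ω := by
  classical
  unfold Nf
  have : (bxN n).filter (fun w => AccS (Cm ω) (Cm ω ∪ Oh) Qh w) ⊆
      (bxN n').filter (fun w => AccS (Cm ω) (Cm ω ∪ Oh) Qh w) := by
    intro w hw
    rw [Finset.mem_filter, mem_bxN] at hw ⊢
    refine ⟨?_, hw.2⟩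
    omega
  exact_mod_cast Finset.card_le_card this

theorem opn_pos {ω : Conf} {e : Edg} (he : e ∈ opn ω) : 0 ≤ (src e).2 ∧ 0 ≤ (tgt e).2 := by
  obtain ⟨x, y, b⟩ := e
  have h0 : 0 ≤ y := by
    rcases he with ⟨h1, -⟩ | ⟨h1, -⟩
    · simp only at h1; omega
    · exact h1
  cases b
  · simp only [src_mk, tgt_false]; omega
  · simp only [src_mk, tgt_true]; omega

theorem opn_axis (ω : Conf) (k : ℕ) : Reach (opn ω) (-(k : ℤ), 0) (0, 0) := by
  induction k with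
  | zero => simpa using Reach.refl (opn ω) ((0 : ℤ), (0 : ℤ))
  | succ k ih =>
    refine Reach.trans (Adj.reach ⟨(-((k : ℤ) + 1), 0, true), Or.inl ⟨rfl, rfl, ?_⟩, ?_⟩) ih
    · simp only; omega
    · left
      simp only [src_mk, tgt_true]
      push_cast
      refine ⟨rfl, ?_⟩
      ext
      · simp only; omega
      · rfl

theorem axis_mem (ω : Conf) {x : ℤ} (hx : x ≤ 0) : (x, (0 : ℤ)) ∈ Cm ω := by
  have h := opn_axis ω (-x).toNat
  have e : (-(((-x).toNat : ℕ) : ℤ)) = x := by omega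
  rw [e] at h
  exact ⟨(0, 0), rfl, Reach.symm h⟩

end Run7.h537.HF
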