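import Pool.Agent.Run7.h537.HF.Tr
import Pool.Agent.Run7.h537.HF.Defs
import Pool.Agent.H984R4.HN.Perc

/-! The comb under an arch gives frontier vertices of the half-plane cluster. -/

set_option autoImplicit false

namespace Run7.h537.HF

open H974 H12S Finset H984P H984N H342P H984H
open Run7.h561 Run7.h561.SURG Run7.h537.AT Run7.h537.FL

/-- the edges of the comb and the arch, in local coordinates -/
noncomputable def SL (n : ℕ) : Finset Edg :=
  (RE (-(5 * (n : ℤ))) n 0 n).filter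
    (fun e => 0 ≤ (src e).1 ∨ (n : ℤ) ≤ 2 * (src e).2 ∨ (src e).1 ≤ -(4 * (n : ℤ)))

theorem mem_SL {n : ℕ} {e : Edg} : e ∈ SL n ↔ e ∈ RE (-(5 * (n : ℤ))) n 0 n ∧
    (0 ≤ (src e).1 ∨ (n : ℤ) ≤ 2 * (src e).2 ∨ (src e).1 ≤ -(4 * (n : ℤ))) := by
  unfold SL
  rw [Finset.mem_filter]

/-- the configuration of these edges -/
noncomputable def F1 (n : ℕ) (ω : Conf) : Finset Edg :=
  (trl (-(2 * (n : ℤ))) 0).mp (cut ω (3 * n)) ∩ SL n

theorem mem_F1 {n : ℕ} {ω : Conf} {e : Edg} :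
    e ∈ F1 n ω ↔ e ∈ SL n ∧ ω (e.1 + 2 * (n : ℤ), e.2.1, e.2.2) = true := by
  unfold F1
  rw [Finset.mem_inter]
  have h := mp_trl_mem (-(2 * (n : ℤ)), 0) (cut ω (3 * n)) e
  simp only [sub_neg_eq_add, sub_zero] at h
  rw [h, Perc_mem_cut]
  constructor
  · rintro ⟨⟨-, h1⟩, h2⟩
    exact ⟨h2, h1⟩
  · rintro ⟨h1, h2⟩
    refine ⟨⟨?_, h2⟩, h1⟩
    rw [mem_SL] at h1
    obtain ⟨x, y, b⟩ := e
    have h3 := h1.1
    show ((x + 2 * (n : ℤ), y, b) : Edg) ∈ RE (-(3 * (n : ℤ))) (3 * n) 0 (3 * n)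
    cases b
    · rw [mem_RE_false] at h3 ⊢; omega
    · rw [mem_RE_true] at h3 ⊢; omega

open Classical in
/-- the open edges of the half-plane in the box of size `3 n`, in local coordinates -/
noncomputable def Fl (n : ℕ) (ω : Conf) : Finset Edg :=
  (RE (-(5 * (n : ℤ))) n 0 (3 * n)).filter
    (fun e => (e.1 + 2 * (n : ℤ), e.2.1, e.2.2) ∈ opn ω)

theorem mem_Fl {n : ℕ} {ω : Conf} {e : Edg} : e ∈ Fl n ω ↔ e ∈ RE (-(5 * (n : ℤ))) n 0 (3 * n) ∧
    (e.1 + 2 * (n : ℤ), e.2.1, e.2.2) ∈ opn ω := by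
  classical
  unfold Fl
  simp only [Finset.mem_filter]

theorem F1_Fl {n : ℕ} {ω : Conf} {e : Edg} (h : e ∈ F1 n ω) (h2 : ¬ (e.2.1 = 0 ∧ e.2.2 = true)) :
    e ∈ Fl n ω := by
  rw [mem_F1, mem_SL] at h
  obtain ⟨⟨h3, -⟩, h4⟩ := h
  rw [mem_Fl]
  obtain ⟨x, y, b⟩ := e
  simp only at h2 h4 ⊢
  have h5 : 0 ≤ y := by
    cases b
    · rw [mem_RE_false] at h3; omega
    · rw [mem_RE_true] at h3; omega
  refine ⟨?_, Or.inr ⟨h5, h2, h4⟩⟩
  cases b
  · rw [mem_RE_false] at h3 ⊢; omega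
  · rw [mem_RE_true] at h3 ⊢; omega

theorem Fl_F1 {n : ℕ} {ω : Conf} {e : Edg} (h : e ∈ Fl n ω) (h2 : e ∈ SL n) (h3 : 0 ≤ (src e).1) :
    e ∈ F1 n ω := by
  rw [mem_Fl] at h
  rw [mem_F1]
  refine ⟨h2, ?_⟩
  obtain ⟨x, y, b⟩ := e
  simp only [src_mk] at h3
  rcases h.2 with ⟨-, -, h4⟩ | ⟨-, -, h4⟩
  · simp only at h4; omega
  · exact h4

/-- the open edges of the half-plane in local coordinates -/
def Gl (n : ℕ) (ω : Conf) : Set Edg := (trl (-(2 * (n : ℤ))) 0).φ '' opn ω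

theorem mem_Gl {n : ℕ} {ω : Conf} {e : Edg} : e ∈ Gl n ω ↔
    (e.1 + 2 * (n : ℤ), e.2.1, e.2.2) ∈ opn ω := by
  unfold Gl
  constructor
  · rintro ⟨⟨x, y, b⟩, he, rfl⟩
    simp only [trl_φ]
    rw [show x + -(2 * (n : ℤ)) + 2 * n = x by ring, add_zero]
    exact he
  · intro h
    refine ⟨_, h, ?_⟩
    obtain ⟨x, y, b⟩ := e
    simp only [trl_φ]
    rw [show x + 2 * (n : ℤ) + -(2 * n) = x by ring, add_zero]

theorem det {t : ℝ} {M B a b m I J n : ℕ} {p c0 E0 : ℝ} {G : Finset Edg → Prop}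
    (hG : Gad t M B a m p c0 E0 G) (hab : a = 2 * b) (ha : 24 ≤ a) (hm : 1 ≤ m) (hI : 1 ≤ I)
    (hJ : 1 ≤ J) (z1 : 256 * ((I : ℤ) * (a * m)) + 3 * (a * m) ≤ n)
    (z2 : 32 * ((J : ℤ) * (a * m)) + 25 * (a * m) ≤ n) {ω : Conf}
    (hcomb : Comb a b m I J G (F1 n ω)) (harc : Arc a m I J (-(5 * (n : ℤ))) n n (F1 n ω))
    (h0 : TBc (-(4 * (n : ℤ)) - 2 * m) (-(4 * (n : ℤ))) 0 n (F1 n ω)) :
    ((I * J : ℕ) : ℝ) * (c0 * (m : ℝ) ^ (4 / 3 : ℝ)) ≤ 25 * Nf (3 * n) ω := by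
  classical
  have ham : 24 * m ≤ a * m := Nat.mul_le_mul_right m ha
  have hmU : 24 * (m : ℤ) ≤ (a : ℤ) * m := by exact_mod_cast ham
  have hm' : (1 : ℤ) ≤ m := by exact_mod_cast hm
  have IU : 0 ≤ (I : ℤ) * (a * m) := by positivity
  have JU : (a : ℤ) * m ≤ (J : ℤ) * (a * m) := by
    have : (1 : ℤ) * (a * m) ≤ J * (a * m) :=
      mul_le_mul_of_nonneg_right (by exact_mod_cast hJ) (by positivity)
    omega
  -- transfer to the open edges of the half-plane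
  have t1 : ∀ e : Edg, e ∈ F1 n ω → ¬ (e.2.1 = 0 ∧ e.2.2 = true) → e ∈ Fl n ω :=
    fun e h h' => F1_Fl h h'
  have hRE : ∀ e : Edg, e ∈ RE 0 n 0 n → e ∈ SL n ∧ 0 ≤ (src e).1 := by
    rintro ⟨x, y, b'⟩ he
    rw [mem_SL]
    cases b'
    · rw [mem_RE_false] at he ⊢
      simp only [src_mk]
      omega
    · rw [mem_RE_true] at he ⊢
      simp only [src_mk]
      omega
  have hcomb' : Comb a b m I J G (Fl n ω) := by
    refine comb_tr hG.toGLc hab ha hm hJ (fun e h h' => t1 e h (by omega)) ?_ hcomb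
    rintro e he (h3 | ⟨g, hg1, hg2, h3⟩)
    · obtain ⟨v, ⟨s, hs, v1, v2, v3⟩, h4, h5⟩ := T2_pos hab hm h3
      have k1 := mulU a m hs
      have k2 := mulU0 a m s
      rw [mem_Fl] at he
      have h6 := Run7.h561.mem_RE.1 he.1
      have h7 : e ∈ RE 0 n 0 n := by
        rw [Run7.h561.mem_RE]
        unfold inR at h6 ⊢
        rw [sd_le] at h4 h5
        refine ⟨⟨⟨?_, ?_⟩, ?_, ?_⟩, ⟨?_, ?_⟩, ?_, ?_⟩ <;> omega
      exact Fl_F1 (mem_Fl.2 he) (hRE e h7).1 (hRE e h7).2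
    · have h7 : e ∈ RE 0 n 0 n := TGs_sub ha hm (n := n) (I := I) (J := J)
        (by zify; omega) (by zify; omega) hg1 hg2 h3
      exact Fl_F1 he (hRE e h7).1 (hRE e h7).2
  obtain ⟨a1, a2, a3⟩ := harc
  have a1' := lrc_tr (by omega) t1 a1
  have a2' := tbc_tr t1 a2
  have a3' := tbc_tr t1 a3
  have h0' := tbc_tr t1 h0
  obtain ⟨t1', t2', u1, u2, u3⟩ := a1'
  obtain ⟨l, l', v1, v2, v3⟩ := h0'
  have hsubG : (↑(Fl n ω) : Set Edg) ⊆ Gl n ω := by
    intro e he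
    rw [Finset.mem_coe, mem_Fl] at he
    rw [mem_Gl]
    exact he.2
  have hGpos : ∀ e ∈ Gl n ω, 0 ≤ (src e).2 ∧ 0 ≤ (tgt e).2 := by
    intro e he
    rw [mem_Gl] at he
    have := opn_pos he
    obtain ⟨x, y, b'⟩ := e
    cases b'
    · simp only [src_mk, tgt_false] at this ⊢; omega
    · simp only [src_mk, tgt_true] at this ⊢; omega
  have hcount := fr_count' hG hab ha hm hI hJ (F := Fl n ω)
    (fun e he => hGpos e (hsubG (by exact_mod_cast he))) hcomb'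
    (X0 := -(5 * (n : ℤ))) (X1 := n) (N := n) (by omega) z1 z2 u1 u2 u3 a2' a3'
    (G' := Gl n ω) hsubG (by
      intro e he h3
      rw [mem_Fl]
      rw [mem_Gl] at he
      refine ⟨?_, he⟩
      have h4 := opn_pos he
      obtain ⟨x, y, b'⟩ := e
      unfold Arch at h3
      cases b'
      · simp only [src_mk, tgt_false] at h3 h4
        rw [mem_RE_false]
        omega
      · simp only [src_mk, tgt_true] at h3 h4
        rw [mem_RE_true]
        omega)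
    (W := {(-(2 * (n : ℤ)), (0 : ℤ))}) (O := {v | v.2 < 0 ∧ v.1 ≤ -(2 * (n : ℤ))})
    (Q := {q | q.2 < 0 ∧ -(2 * (n : ℤ)) < q.1})
    (bx := Finset.Icc (-(5 * (n : ℤ))) n ×ˢ Finset.Icc (0 : ℤ) (3 * n))
    (by
      rintro y (hy | hy) ⟨⟨b1, b2⟩, b3, b4⟩
      · rw [Set.mem_singleton_iff] at hy
        subst hy
        simp only at b1
        omega
      · simp only [Set.mem_setOf_eq] at hy
        omega)
    (by
      have k := LEV.meet (K := (↑(Fl n ω) : Set Edg)) (a := -(4 * (n : ℤ)) - 2 * m)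
        (b := -(4 * (n : ℤ)))
        (c := 24 * ((a : ℤ) * m) + 32 * ((J : ℤ) * (a * m)) - m)
        (d := 24 * ((a : ℤ) * m) + 32 * ((J : ℤ) * (a * m)) + m)
        (by omega) (by omega) Set.inter_subset_left Set.inter_subset_left
        (fun x y h6 h7 h8 => by
          have := h6.2
          simp only [mem_coe, mem_LRE_true] at this
          omega)
        (fun x y h6 h7 h8 => by
          have := h6.2
          simp only [mem_coe, mem_LRE_false] at this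
          omega)
        (fun x y h6 h7 h8 => by
          have := h6.2
          simp only [mem_coe, mem_TBE_false] at this
          omega)
        (fun x y h6 h7 h8 => by
          have := h6.2
          simp only [mem_coe, mem_TBE_true] at this
          omega)
        u3 (by simp only; omega) (by simp only; omega) v3 (by simp only; omega)
        (by simp only; omega)
      refine ⟨(-(2 * (n : ℤ)), 0), rfl, ?_⟩
      have k2 := opn_axis ω (-(l + 2 * (n : ℤ))).toNat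
      have e1 : (-(((-(l + 2 * (n : ℤ))).toNat : ℕ) : ℤ)) = l + 2 * n := by omega
      rw [e1] at k2
      have k3 := (trl (-(2 * (n : ℤ))) 0).reach k2
      have e2 : (trl (-(2 * (n : ℤ))) 0).ψ (l + 2 * n, 0) = (l, 0) := by
        simp only [trl_ψ, Prod.mk.injEq, add_zero, and_true]
        ring
      have e3 : (trl (-(2 * (n : ℤ))) 0).ψ (0, 0) = (-(2 * (n : ℤ)), 0) := by
        simp only [trl_ψ, Prod.mk.injEq, add_zero, and_true]
        ring
      rw [e2, e3] at k3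
      exact Reach.trans (Reach.symm k3) (Reach.mono hsubG (Reach.symm k)))
    (by
      rintro z ⟨⟨b1, b2⟩, b3, b4⟩ hz
      simp only [Set.mem_setOf_eq]
      omega)
    (by
      rintro w ⟨w0, hw0, hw⟩
      rw [Set.mem_singleton_iff] at hw0
      subst hw0
      exact Run7.h561.reach_mem (A := {v : Vtx | 0 ≤ v.2}) hGpos hw (by simp))
    (by
      rintro y ⟨⟨b1, b2⟩, b3, b4⟩
      rw [Finset.mem_product, Finset.mem_Icc, Finset.mem_Icc]
      simp only [Set.mem_setOf_eq]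
      omega)
  refine hcount.trans ?_
  have h25 : (0:ℝ) ≤ 25 := by norm_num
  refine mul_le_mul_of_nonneg_left ?_ h25
  unfold Nf
  have hinj : Function.Injective (trl (2 * (n : ℤ)) 0).ψ := (trl (2 * (n : ℤ)) 0).ψ.injective
  rw [← Finset.card_image_of_injective _ hinj]
  have hK : ∀ v : Vtx, (trl (2 * (n : ℤ)) 0).ψ v ∈ Cm ω ↔
      v ∈ KW {(-(2 * (n : ℤ)), (0 : ℤ))} (Gl n ω) := by
    intro v
    have e1 : ∀ v : Vtx, (trl (-(2 * (n : ℤ))) 0).ψ ((trl (2 * (n : ℤ)) 0).ψ v) = v := by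
      rintro ⟨x, y⟩
      simp only [trl_ψ, Prod.mk.injEq, add_zero, and_true]
      ring
    have e3 : (trl (-(2 * (n : ℤ))) 0).ψ (0, 0) = (-(2 * (n : ℤ)), 0) := by
      simp only [trl_ψ, Prod.mk.injEq, add_zero, and_true]
      ring
    constructor
    · rintro ⟨w, hw, h⟩
      rw [Set.mem_singleton_iff] at hw
      subst hw
      have h2 := (trl (-(2 * (n : ℤ))) 0).reach h
      rw [e1, e3] at h2
      exact ⟨_, rfl, h2⟩
    · rintro ⟨w, hw, h⟩
      rw [Set.mem_singleton_iff] at hw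
      subst hw
      refine ⟨(0, 0), rfl, ?_⟩
      rw [← (trl (-(2 * (n : ℤ))) 0).reach_iff, e1, e3]
      exact h
  have hsub : ((Finset.Icc (-(5 * (n : ℤ))) n ×ˢ Finset.Icc (0 : ℤ) (3 * n)).filter
      (fun w => AccS (KW {(-(2 * (n : ℤ)), (0 : ℤ))} (Gl n ω))
        (KW {(-(2 * (n : ℤ)), (0 : ℤ))} (Gl n ω) ∪ {v | v.2 < 0 ∧ v.1 ≤ -(2 * (n : ℤ))})
        {q | q.2 < 0 ∧ -(2 * (n : ℤ)) < q.1} w)).image (trl (2 * (n : ℤ)) 0).ψ ⊆
      (bxN (3 * n)).filter (fun w => AccS (Cm ω) (Cm ω ∪ Oh) Qh w) := by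
    intro w hw
    rw [Finset.mem_image] at hw
    obtain ⟨v, hv, rfl⟩ := hw
    rw [Finset.mem_filter] at hv ⊢
    refine ⟨?_, AccS_sym (trl (2 * (n : ℤ)) 0) (fun v hv => (hK v).2 hv) ?_ ?_ hv.2⟩
    · obtain ⟨x, y⟩ := v
      have h1 := hv.1
      rw [Finset.mem_product, Finset.mem_Icc, Finset.mem_Icc] at h1
      rw [mem_bxN]
      simp only [trl_ψ] at h1 ⊢
      push_cast
      omega
    · rintro ⟨x, y⟩ (h1 | h1)
      · exact Or.inl ((hK _).1 h1)
      · right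
        unfold Oh at h1
        simp only [trl_ψ, Set.mem_setOf_eq] at h1 ⊢
        omega
    · rintro ⟨x, y⟩ h1
      unfold Qh
      simp only [trl_ψ, Set.mem_setOf_eq] at h1 ⊢
      omega
  exact_mod_cast Finset.card_le_card hsub

end Run7.h537.HF
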