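import Pool.Agent.Run7.h537.AT.Up
import Pool.Agent.Run7.h537.HF.Defs
import Pool.Agent.H984R4.HN.Perc

/-! The number of vertices with three arms in the half-plane. -/

set_option autoImplicit false

namespace Run7.h537.HF

open H974 H12S Finset H389NS H984P H984N H342P H984H MeasureTheory
open Pool.Agent.W424.OD Pool.Agent.W801.RS.LOWA
open TH992.T (Bq mem_Bq card_Bq Nb Yb Fam RE_sub_RE)
open Run7.h537.AT Run7.h537.FL
open Run7.h561 (Cu sd_le le_sd)

/-- the radius of the arms -/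
noncomputable def kh (s : ℕ) (v : Vtx) : ℤ := min ((s / 8 : ℕ) : ℤ) (v.2 - 1)

open Classical in
/-- three arms -/
noncomputable def xh (N s : ℕ) (v : Vtx) (F : Finset Edg) : ℝ :=
  if (-(N : ℤ) ≤ v.1 ∧ v.1 ≤ N) ∧ 1 ≤ v.2 ∧ v.2 ≤ N then ind (A3k v (kh s v) (↑F : Set Edg)) else 0

theorem ph_min2 {C s : ℝ} (hC : 0 ≤ C) (a b : ℤ) : ph C s (min a b) ≤ ph C s a + ph C s b := by
  have h1 := ph_nonneg (s := s) hC a
  have h2 := ph_nonneg (s := s) hC b
  rcases min_choice a b with h | h <;> rw [h] <;> linarith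

theorem blk_half {N k : ℕ} {v : Vtx} (h1 : -(N : ℤ) ≤ v.1 ∧ v.1 ≤ N) (h2 : 1 ≤ v.2 ∧ v.2 ≤ N)
    (hk : (k : ℤ) ≤ v.2 - 1) : blk v k ⊆ (bx (2 * (N : ℤ))).edges := by
  show RE _ _ _ _ ⊆ RE (-(2 * (N : ℤ))) (2 * N) 0 (2 * N)
  exact RE_sub_RE (by omega) (by omega) (by omega) (by omega)

/-- the family -/
theorem xh_fam {C : ℝ} (hC : 1 ≤ C) (hU : ∀ (c : ℤ × ℤ) (k : ℕ), 1 ≤ k → ∀ S : Finset Edg,
    blk c k ⊆ S → PQ (1/2) S (fun F => A3v c 1 k ↑F) ≤ C * (k : ℝ) ^ (-(2/3):ℝ)) (N : ℕ) :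
    Fam (2/3) 1 (40 * C) (fun _ => 1/2) (bx (2 * (N : ℤ))).edges (xh N) := by
  classical
  refine ⟨ok2, ?_, ?_, ?_, ?_, ?_⟩
  · intro s v F
    unfold xh
    split_ifs
    · exact ind_nonneg _
    · exact le_rfl
  · intro s v F
    unfold xh
    split_ifs
    · exact ind_le_one _
    · norm_num
  · intro s s' v F hs
    unfold xh
    split_ifs
    · apply ind_mono
      apply A3k_anti
      unfold kh
      have : s' / 8 ≤ s / 8 := Nat.div_le_div_right hs
      omega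
    · exact le_rfl
  · intro s v F hF
    unfold xh
    split_ifs
    · have h := A3k_loc (v := v) (k := kh s v) (F := F)
        (T := RE (v.1 - s) (v.1 + s) (v.2 - s) (v.2 + s) ∩ (bx (2 * (N : ℤ))).edges) (by
          intro e he hb
          rw [Finset.mem_inter]
          refine ⟨?_, hF he⟩
          unfold blk at hb
          have hk : ((kh s v).toNat : ℤ) ≤ s := by unfold kh; omega
          exact RE_sub_RE (by omega) (by omega) (by omega) (by omega) hb)
      rw [propext h]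
    · rfl
  · intro s hs b c
    have hC0 : 0 ≤ C := by linarith
    have hs0 : (0:ℝ) < s := by exact_mod_cast hs
    have h1 : ∀ v ∈ Bq b c s, Ex (fun _ => (1/2:ℝ)) (bx (2 * (N : ℤ))).edges (xh N s v) ≤
        ph C (2/3) ((s / 8 : ℕ) : ℤ) + hp C (v.2 - 1) := by
      intro v _
      have g1 := ph_nonneg (s := 2/3) hC0 ((s / 8 : ℕ) : ℤ)
      by_cases hv : (-(N : ℤ) ≤ v.1 ∧ v.1 ≤ N) ∧ 1 ≤ v.2 ∧ v.2 ≤ N
      · have e1 : xh N s v = fun F : Finset Edg => ind (A3k v (kh s v) (↑F : Set Edg)) := by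
          funext F; unfold xh; rw [if_pos hv]
        rw [e1]
        have g2 := ph_min2 (s := 2/3) hC0 ((s / 8 : ℕ) : ℤ) (v.2 - 1)
        have g3 : hp C (v.2 - 1) = ph C (2/3) (v.2 - 1) := by unfold AT.hp; rw [if_pos (by omega)]
        have g7 : Ex (fun _ => (1/2:ℝ)) (bx (2 * (N : ℤ))).edges
            (fun F => ind (A3k v (kh s v) (↑F : Set Edg))) ≤ ph C (2/3) (kh s v) := by
          unfold ph
          split_ifs with h
          · exact Pr_le_one ok2 _ (fun F => A3k v (kh s v) (↑F : Set Edg))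
          · have hkn : (((kh s v).toNat : ℕ) : ℤ) = kh s v := Int.toNat_of_nonneg (by omega)
            have h2 := hU v (kh s v).toNat (by omega) (bx (2 * (N : ℤ))).edges
              (blk_half hv.1 hv.2 (by rw [hkn]; exact min_le_right _ _))
            have h3 : ((((kh s v).toNat : ℕ) : ℝ)) = ((kh s v : ℤ) : ℝ) := by exact_mod_cast hkn
            rw [h3] at h2
            refine le_trans ?_ h2
            refine Pr_mono ok2 ?_
            intro F _ hF
            rcases hF with hF | hF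
            · exact absurd hF h
            · exact hF
        unfold kh at g7 ⊢
        linarith
      · have e1 : xh N s v = fun _ => (0:ℝ) := by
          funext F; unfold xh; rw [if_neg hv]
        rw [e1, Ex_const]
        have := hp_nonneg hC0 (v.2 - 1)
        linarith
    refine (Finset.sum_le_sum h1).trans ?_
    rw [Finset.sum_add_distrib, Finset.sum_const, card_Bq, nsmul_eq_mul]
    have h2 := ph_side hC hs
    have h3 : ∑ v ∈ Bq b c s, hp C (v.2 - 1) ≤ (s:ℝ) * (6 * C * (s:ℝ) ^ (1/3:ℝ)) := by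
      unfold Bq
      rw [Finset.sum_product]
      have hcard : (Finset.Ico b (b + s)).card = s := by
        rw [Int.card_Ico]; omega
      simp only [Finset.sum_const, hcard, nsmul_eq_mul]
      apply mul_le_mul_of_nonneg_left _ hs0.le
      refine le_trans (le_of_eq ?_) (sum_hp hC (c - 1) s)
      apply Finset.sum_nbij' (fun x => x - 1) (fun x => x + 1)
      · intro x hx; rw [Finset.mem_Ico] at hx ⊢; omega
      · intro x hx; rw [Finset.mem_Ico] at hx ⊢; omega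
      · intro x _; ring
      · intro x _; ring
      · intro x _; rfl
    have e1 : (s:ℝ) * s * (s:ℝ) ^ (-(2/3):ℝ) = (s:ℝ) ^ (2 - 2/3:ℝ) := by
      rw [show (s:ℝ) * s = (s:ℝ) ^ (2:ℝ) by rw [Real.rpow_two]; ring, ← Real.rpow_add hs0]
      norm_num
    have e2 : (s:ℝ) * (s:ℝ) ^ (1/3:ℝ) = (s:ℝ) ^ (2 - 2/3:ℝ) := by
      nth_rewrite 1 [← Real.rpow_one (s:ℝ)]
      rw [← Real.rpow_add hs0]
      norm_num
    have h4 : ((s * s : ℕ) : ℝ) * ph C (2/3) ((s / 8 : ℕ) : ℤ) ≤ 16 * C * (s:ℝ) ^ (2 - 2/3:ℝ) := by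
      rw [← e1, Nat.cast_mul]
      have := mul_le_mul_of_nonneg_left h2 (by positivity : (0:ℝ) ≤ (s:ℝ) * s)
      linarith
    have h5 : 0 ≤ C * ((s:ℝ) * (s:ℝ) ^ (1/3:ℝ)) := by positivity
    rw [← e2] at h4 ⊢
    linarith

theorem A3v_congr {F F' : Set Edg} {c : ℤ × ℤ} {d k : ℕ} (h : F ∩ AE c d k = F' ∩ AE c d k) :
    A3v c d k F ↔ A3v c d k F' := by
  unfold A3v Pool.Agent.W424.OD.Cl
  rw [h]

theorem A3v_opn {ω : Conf} {n k : ℕ} {v : Vtx} (h1 : -(n : ℤ) ≤ v.1 ∧ v.1 ≤ n)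
    (h2 : 1 ≤ v.2 ∧ v.2 ≤ n) (hk : (k : ℤ) ≤ v.2 - 1) :
    A3v v 1 k (opn ω) ↔ A3v v 1 k (↑(cut ω (2 * (n : ℤ))) : Set Edg) := by
  apply A3v_congr
  ext e
  constructor
  · rintro ⟨e1, e2⟩
    refine ⟨?_, e2⟩
    rw [Finset.mem_coe, Perc_mem_cut]
    have e3 : e ∈ blk v k := (Finset.mem_sdiff.1 (by exact_mod_cast e2 : e ∈ blk v k \ blk v 1)).1
    refine ⟨blk_half h1 h2 hk e3, ?_⟩
    have e4 := (H731C.RE_ends e3).1
    obtain ⟨x, y, b⟩ := e
    unfold inR at e4
    simp only [src_mk] at e4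
    rcases e1 with ⟨e5, -⟩ | ⟨-, -, e5⟩
    · simp only at e5; omega
    · exact e5
  · rintro ⟨e1, e2⟩
    refine ⟨?_, e2⟩
    rw [Finset.mem_coe, Perc_mem_cut] at e1
    have e3 : e ∈ blk v k := (Finset.mem_sdiff.1 (by exact_mod_cast e2 : e ∈ blk v k \ blk v 1)).1
    have e4 := (H731C.RE_ends e3).1
    obtain ⟨x, y, b⟩ := e
    unfold inR at e4
    simp only [src_mk] at e4
    right
    simp only
    refine ⟨by omega, by omega, e1.2⟩

/-- A frontier vertex has three arms. -/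
theorem arms_opn {ω : Conf} {w : Vtx} {k : ℕ} (hk1 : 1 ≤ k) (hk : (k : ℤ) ≤ w.2 - 1)
    (h : AccS (Cm ω) (Cm ω ∪ Oh) Qh w) : A3v w 1 k (opn ω) := by
  obtain ⟨⟨u0, hu0, hu0w⟩, e, p, q, he, hp, hq, hpq⟩ := h
  rw [Set.mem_singleton_iff] at hu0
  subst hu0
  have hww : BX w 1 w := by
    unfold BX inR
    omega
  have hpw : BX w 1 p := by
    obtain ⟨x, y, t⟩ := e
    obtain ⟨w1, w2⟩ := w
    obtain ⟨p1, p2⟩ := p
    unfold BX inR
    unfold Plain.fst Plain.snd at he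
    cases t
    · simp only [Bool.false_eq_true, if_false, Prod.mk.injEq] at he
      simp only [Nat.cast_one]
      omega
    · simp only [if_true, Prod.mk.injEq] at he
      simp only [Nat.cast_one]
      omega
  refine A3v_of (v := (0, 0)) (x := w) (x' := (0, 0)) (w := p) (w' := q) hk1 hww hu0w ?_
    (Reach.refl _ _) hpw ?_ (hpq.mono ?_)
  · intro h1
    unfold BX inR at h1
    simp only at h1
    omega
  · intro h1
    unfold BX inR at h1
    unfold Qh at hq
    simp only [Set.mem_setOf_eq] at hq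
    omega
  · rintro e ⟨h1, h2⟩
    exact ⟨fun h3 => h1 (Or.inl ⟨(0, 0), rfl, h3⟩), fun h3 => h2 (Or.inl ⟨(0, 0), rfl, h3⟩)⟩

theorem Nf_le (n : ℕ) (ω : Conf) :
    Nf n ω ≤ (2 * n + 1) + Nb (xh n) (2 * n + 1) (-(n : ℤ)) 0 (cut ω (2 * (n : ℤ))) := by
  classical
  unfold Nf
  set A := (bxN n).filter (fun w => AccS (Cm ω) (Cm ω ∪ Oh) Qh w) with hA
  have h1 : A ⊆ (Finset.Icc (-(n : ℤ)) n ×ˢ ({0} : Finset ℤ)) ∪ A.filter (fun w => 1 ≤ w.2) := by
    intro w hw
    rw [Finset.mem_union]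
    by_cases h : 1 ≤ w.2
    · exact Or.inr (Finset.mem_filter.2 ⟨hw, h⟩)
    · left
      rw [hA, Finset.mem_filter, mem_bxN] at hw
      rw [Finset.mem_product, Finset.mem_Icc, Finset.mem_singleton]
      omega
  have h2 := Finset.card_le_card h1
  have h3 := Finset.card_union_le (Finset.Icc (-(n : ℤ)) n ×ˢ ({0} : Finset ℤ))
    (A.filter (fun w => 1 ≤ w.2))
  rw [Finset.card_product, Int.card_Icc, Finset.card_singleton, mul_one] at h3
  have h4 : ((n : ℤ) + 1 - -(n : ℤ)).toNat = 2 * n + 1 := by omega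
  rw [h4] at h3
  have h5 : ((A.card : ℕ) : ℝ) ≤ (2 * n + 1) + (((A.filter (fun w => 1 ≤ w.2)).card : ℕ) : ℝ) := by
    have : A.card ≤ (2 * n + 1) + (A.filter (fun w => 1 ≤ w.2)).card := h2.trans h3
    exact_mod_cast this
  refine h5.trans ?_
  gcongr
  have hsub : A.filter (fun w => 1 ≤ w.2) ⊆ Bq (-(n : ℤ)) 0 (2 * n + 1) := by
    intro w hw
    rw [Finset.mem_filter, hA, Finset.mem_filter, mem_bxN] at hw
    rw [mem_Bq]
    push_cast
    omega
  unfold Nb
  calc (((A.filter (fun w => 1 ≤ w.2)).card : ℕ) : ℝ)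
      = ∑ w ∈ A.filter (fun w => 1 ≤ w.2), (1:ℝ) := by simp
    _ ≤ ∑ w ∈ A.filter (fun w => 1 ≤ w.2), xh n (2 * n + 1) w (cut ω (2 * (n : ℤ))) := by
        apply Finset.sum_le_sum
        intro w hw
        rw [Finset.mem_filter, hA, Finset.mem_filter, mem_bxN] at hw
        obtain ⟨⟨⟨hw1, hw2⟩, hw3⟩, hw4⟩ := hw
        unfold xh
        rw [if_pos ⟨hw1, hw4, hw2.2⟩, ind_of]
        by_cases hk0 : kh (2 * n + 1) w ≤ 0
        · exact Or.inl hk0
        right
        have hkb : kh (2 * n + 1) w ≤ w.2 - 1 := min_le_right _ _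
        have hkn : (((kh (2 * n + 1) w).toNat : ℕ) : ℤ) = kh (2 * n + 1) w :=
          Int.toNat_of_nonneg (by omega)
        rw [← A3v_opn hw1 ⟨hw4, hw2.2⟩ (by rw [hkn]; exact hkb)]
        exact arms_opn (by omega) (by rw [hkn]; exact hkb) hw3
    _ ≤ _ := by
        apply Finset.sum_le_sum_of_subset_of_nonneg hsub
        intro w _ _
        unfold xh
        split_ifs
        · exact ind_nonneg _
        · exact le_rfl

end Run7.h537.HF
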