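import Pool.Agent.Run7.h537.HF.Tail

/-! The law of the iterated logarithm for the number of frontier vertices. -/

set_option autoImplicit false

namespace Run7.h537.HF

open H974 H12S Finset H984P H984N H342P H984H MeasureTheory Filter Topology
open Run7.h537.AT Run7.h537.FL

theorem cube_rpow {y : ℝ} (hy : 0 ≤ y) : (y ^ (1/3:ℝ)) ^ 3 = y := by
  rw [← Real.rpow_natCast, ← Real.rpow_mul hy]
  norm_num

theorem lil_up {K c : ℝ} (hK : 0 < K) (hc : 0 < c)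
    (hup : ∀ n : ℕ, 1 ≤ n → ∀ x : ℝ, 0 ≤ x →
      perc.real {ω | x * (n:ℝ) ^ (4/3:ℝ) ≤ Nf n ω} ≤ K * Real.exp (-(c * x ^ 3))) :
    ∃ C : ℝ, 0 < C ∧ ∀ᵐ ω ∂perc, ∀ᶠ n : ℕ in atTop,
      Nf n ω ≤ C * (n:ℝ) ^ (4/3:ℝ) * (Real.log (Real.log n)) ^ (1/3:ℝ) := by
  obtain ⟨A, hA⟩ : ∃ A : ℝ, A = (2 / c) ^ (1/3:ℝ) := ⟨_, rfl⟩
  have hA0 : 0 < A := by rw [hA]; positivity
  have hA3 : A ^ 3 = 2 / c := by rw [hA]; exact cube_rpow (by positivity)
  obtain ⟨s, hs⟩ : ∃ s : ℕ → Set Conf, s = fun (k : ℕ) => {ω | A * (Real.log ((k:ℝ) + 1)) ^ (1/3:ℝ) *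
    (((2 ^ k : ℕ) : ℝ)) ^ (4/3:ℝ) ≤ Nf (2 ^ k) ω} := ⟨_, rfl⟩
  have h1 : ∀ k : ℕ, perc.real (s k) ≤ K * (1 / ((k + 1 : ℕ) : ℝ) ^ 2) := by
    intro k
    have hk0 : (0:ℝ) ≤ k := Nat.cast_nonneg k
    have hl : 0 ≤ Real.log ((k:ℝ) + 1) := Real.log_nonneg (by linarith)
    have h2 := hup (2 ^ k) Nat.one_le_two_pow (A * (Real.log ((k:ℝ) + 1)) ^ (1/3:ℝ)) (by positivity)
    rw [hs]
    refine h2.trans (mul_le_mul_of_nonneg_left (le_of_eq ?_) hK.le)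
    rw [mul_pow, cube_rpow hl, hA3]
    have e1 : -(c * (2 / c * Real.log ((k:ℝ) + 1))) = -(2 * Real.log ((k:ℝ) + 1)) := by
      field_simp
    rw [e1, Real.exp_neg, one_div]
    congr 1
    have e2 : 2 * Real.log ((k:ℝ) + 1) = Real.log (((k:ℝ) + 1) ^ 2) := by
      rw [Real.log_pow]; norm_num
    rw [e2, Real.exp_log (by positivity)]
    push_cast
    rfl
  have hsum : Summable (fun k : ℕ => K * (1 / ((k + 1 : ℕ) : ℝ) ^ 2)) := by
    apply Summable.mul_left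
    exact (summable_nat_add_iff 1).2 (Real.summable_one_div_nat_pow.2 (by norm_num))
  have h2 : (∑' k, perc (s k)) ≠ ⊤ := by
    have h3 : ∀ k, perc (s k) ≤ ENNReal.ofReal (K * (1 / ((k + 1 : ℕ) : ℝ) ^ 2)) := by
      intro k
      rw [← ofReal_measureReal (μ := perc) (s := s k)]
      exact ENNReal.ofReal_le_ofReal (h1 k)
    exact ne_top_of_le_ne_top hsum.tsum_ofReal_ne_top (ENNReal.tsum_le_tsum h3)
  have h3 := ae_eventually_notMem h2
  refine ⟨8 * A, by positivity, ?_⟩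
  filter_upwards [h3] with ω hω
  obtain ⟨k0, hk0⟩ := eventually_atTop.1 hω
  rw [eventually_atTop]
  refine ⟨2 ^ (k0 + 5), fun n hn => ?_⟩
  obtain ⟨k', hk'⟩ : ∃ k' : ℕ, k' = Nat.log 2 n := ⟨_, rfl⟩
  have hn0 : n ≠ 0 := by
    have : 0 < 2 ^ (k0 + 5) := by positivity
    omega
  have h4 : 2 ^ k' ≤ n := by rw [hk']; exact Nat.pow_log_le_self 2 hn0
  have h5 : n < 2 ^ (k' + 1) := by rw [hk']; exact Nat.lt_pow_succ_log_self (by norm_num) n
  have h6 : k0 + 5 ≤ k' := by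
    rw [hk']
    exact Nat.le_log_of_pow_le (by norm_num) hn
  have h7 := hk0 (k' + 1) (by omega)
  rw [hs] at h7
  simp only [Set.mem_ofPred_eq, not_le] at h7
  have h8 := (Nf_mono h5.le ω).trans h7.le
  have hn1 : (0:ℝ) < n := by exact_mod_cast Nat.pos_of_ne_zero hn0
  -- the logarithms
  obtain ⟨L, hL⟩ : ∃ L : ℝ, L = Real.log n := ⟨_, rfl⟩
  have hLk : (k':ℝ) * Real.log 2 ≤ L := by
    have : ((2 ^ k' : ℕ) : ℝ) ≤ n := by exact_mod_cast h4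
    have h9 := Real.log_le_log (by positivity) this
    push_cast at h9
    rw [Real.log_pow] at h9
    rw [hL]; exact h9
  have hl2 := Real.log_two_gt_d9
  have hk5 : (5:ℝ) ≤ k' := by exact_mod_cast (by omega : 5 ≤ k')
  have hL3 : 3 ≤ L := by nlinarith
  have hk2L : (k':ℝ) ≤ 2 * L := by nlinarith
  have h9 : (((k' + 1 : ℕ) : ℝ)) + 1 ≤ L ^ 2 := by push_cast; nlinarith
  have hLL : 0 ≤ Real.log L := Real.log_nonneg (by linarith)
  have h10 : Real.log ((((k' + 1 : ℕ) : ℝ)) + 1) ≤ 2 * Real.log L := by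
    have h11 := Real.log_le_log (by positivity) h9
    rw [Real.log_pow] at h11
    exact_mod_cast h11
  have h11 : (Real.log ((((k' + 1 : ℕ) : ℝ)) + 1)) ^ (1/3:ℝ) ≤ 2 * (Real.log L) ^ (1/3:ℝ) := by
    refine (Real.rpow_le_rpow (Real.log_nonneg (by push_cast; linarith)) h10
      (by norm_num)).trans ?_
    rw [Real.mul_rpow (by norm_num) hLL]
    apply mul_le_mul_of_nonneg_right _ (by positivity)
    calc (2:ℝ) ^ (1/3:ℝ) ≤ (2:ℝ) ^ (1:ℝ) :=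
          Real.rpow_le_rpow_of_exponent_le (by norm_num) (by norm_num)
      _ = 2 := by norm_num
  have h12 : (((2 ^ (k' + 1) : ℕ) : ℝ)) ^ (4/3:ℝ) ≤ 4 * (n:ℝ) ^ (4/3:ℝ) := by
    have h13 : (((2 ^ (k' + 1) : ℕ) : ℝ)) ≤ 2 * n := by
      have : 2 ^ (k' + 1) ≤ 2 * n := by rw [pow_succ]; omega
      exact_mod_cast this
    refine (Real.rpow_le_rpow (by positivity) h13 (by norm_num)).trans ?_
    rw [Real.mul_rpow (by norm_num) hn1.le]
    apply mul_le_mul_of_nonneg_right _ (by positivity)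
    calc (2:ℝ) ^ (4/3:ℝ) ≤ (2:ℝ) ^ (2:ℝ) :=
          Real.rpow_le_rpow_of_exponent_le (by norm_num) (by norm_num)
      _ = 4 := by norm_num
  refine h8.trans ?_
  rw [← hL]
  have h13 : 0 ≤ (Real.log L) ^ (1/3:ℝ) := by positivity
  calc A * (Real.log ((((k' + 1 : ℕ) : ℝ)) + 1)) ^ (1/3:ℝ) *
        (((2 ^ (k' + 1) : ℕ) : ℝ)) ^ (4/3:ℝ)
      ≤ A * (2 * (Real.log L) ^ (1/3:ℝ)) * (4 * (n:ℝ) ^ (4/3:ℝ)) := by
        apply mul_le_mul (mul_le_mul_of_nonneg_left h11 hA0.le) h12 (by positivity)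
          (by positivity)
    _ = 8 * A * (n:ℝ) ^ (4/3:ℝ) * (Real.log L) ^ (1/3:ℝ) := by ring

theorem SG_disj {n n' : ℕ} (hn : 1 ≤ n) (h : 4 * n ≤ n') : Disjoint (SG n) (SG n') := by
  rw [Finset.disjoint_left]
  rintro ⟨x, y, b⟩ h1 h2
  rw [mem_SG, mem_SL] at h1 h2
  simp only [src_mk] at h1 h2
  cases b
  · rw [mem_RE_false] at h1 h2; omega
  · rw [mem_RE_true] at h1 h2; omega

theorem lil_low : ∃ c : ℝ, 0 < c ∧ ∀ᵐ ω ∂perc, ∃ᶠ n : ℕ in atTop,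
      c * (n:ℝ) ^ (4/3:ℝ) * (Real.log (Real.log n)) ^ (1/3:ℝ) ≤ Nf n ω := by
  obtain ⟨C, c, n0, hC, hc, h⟩ := low_cnt
  obtain ⟨x, hx⟩ : ∃ x : ℕ → ℝ, x = fun (j : ℕ) => (Real.log ((j:ℝ) + 1) / C) ^ (1/3:ℝ) := ⟨_, rfl⟩
  have hlog : ∀ j : ℕ, 0 ≤ Real.log ((j:ℝ) + 1) := fun j =>
    Real.log_nonneg (by have : (0:ℝ) ≤ j := Nat.cast_nonneg j; linarith)
  have hx3 : ∀ j, (x j) ^ 3 = Real.log ((j:ℝ) + 1) / C := by
    intro j
    rw [hx]
    exact cube_rpow (div_nonneg (hlog j) hC.le)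
  have hx0 : ∀ j, 0 ≤ x j := fun j => by
    rw [hx]
    exact Real.rpow_nonneg (div_nonneg (hlog j) hC.le) _
  have hsep : TH992.L.Sep (fun j => Es (4 ^ j) (x j)) (fun j => 3 * (((4 ^ j : ℕ)) : ℤ))
      (fun j => SG (4 ^ j)) := by
    constructor
    · intro i j hij
      have : 4 ^ i ≤ 4 ^ j := Nat.pow_le_pow_right (by norm_num) hij
      simp only
      have : ((4 ^ i : ℕ) : ℤ) ≤ ((4 ^ j : ℕ) : ℤ) := by exact_mod_cast this
      linarith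
    · intro j
      exact SG_box _
    · intro j F
      exact Es_loc _ _ _
    · intro i j hij
      have key : ∀ i j : ℕ, i < j → Disjoint (SG (4 ^ i)) (SG (4 ^ j)) := by
        intro i j hij
        apply SG_disj (Nat.one_le_pow _ _ (by norm_num))
        calc 4 * 4 ^ i = 4 ^ (i + 1) := by rw [pow_succ]; ring
          _ ≤ 4 ^ j := Nat.pow_le_pow_right (by norm_num) hij
      rcases lt_or_gt_of_ne hij with h1 | h1
      · exact key i j h1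
      · exact (key j i h1).symm
  obtain ⟨m0, hm0⟩ : ∃ m0 : ℕ, m0 = n0 + ⌈Real.exp C⌉₊ + ⌈1 / (C * c ^ 3)⌉₊ + 2 := ⟨_, rfl⟩
  have hp : ∀ j, m0 ≤ j → 1 / ((j : ℝ) + 1) ≤ H984H.P (SG (4 ^ j)) (Es (4 ^ j) (x j)) := by
    intro j hj
    have hj0 : (0:ℝ) ≤ j := Nat.cast_nonneg j
    have hj4 : j ≤ 4 ^ j := (Nat.lt_pow_self (by norm_num)).le
    have hj4' : (j:ℝ) ≤ ((4 ^ j : ℕ) : ℝ) := by exact_mod_cast hj4
    have g1 : Real.exp C ≤ j := by
      have h1 := Nat.le_ceil (Real.exp C)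
      have h2 : ((⌈Real.exp C⌉₊ : ℕ) : ℝ) ≤ j := by exact_mod_cast (by omega : ⌈Real.exp C⌉₊ ≤ j)
      linarith
    have g2 : 1 / (C * c ^ 3) ≤ j := by
      have h1 := Nat.le_ceil (1 / (C * c ^ 3))
      have h2 : ((⌈1 / (C * c ^ 3)⌉₊ : ℕ) : ℝ) ≤ j := by
        exact_mod_cast (by omega : ⌈1 / (C * c ^ 3)⌉₊ ≤ j)
      linarith
    have g3 : C ≤ Real.log ((j:ℝ) + 1) := by
      rw [Real.le_log_iff_exp_le (by positivity)]
      linarith
    have g4 : Real.log ((j:ℝ) + 1) ≤ j := by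
      have := Real.log_le_sub_one_of_pos (show (0:ℝ) < (j : ℝ) + 1 by positivity)
      linarith
    rw [Es_pr]
    refine le_trans (le_of_eq ?_) (h (4 ^ j) (by omega) (x j) ?_ ?_)
    · rw [hx3]
      have e1 : C * (Real.log ((j:ℝ) + 1) / C) = Real.log ((j:ℝ) + 1) := by field_simp
      rw [e1, Real.exp_neg, Real.exp_log (by positivity), one_div]
    · have h1 : 1 ≤ (x j) ^ 3 := by
        rw [hx3, le_div_iff₀ hC, one_mul]
        exact g3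
      by_contra hcon
      push Not at hcon
      have := pow_lt_one₀ (hx0 j) hcon (by norm_num : 3 ≠ 0)
      linarith
    · have h1 : (x j) ^ 3 ≤ (c * ((4 ^ j : ℕ) : ℝ) ^ (2/3:ℝ)) ^ 3 := by
        rw [hx3, mul_pow]
        have e1 : ((((4 ^ j : ℕ) : ℝ)) ^ (2/3:ℝ)) ^ 3 = ((4 ^ j : ℕ) : ℝ) ^ 2 := by
          rw [← Real.rpow_natCast, ← Real.rpow_mul (by positivity)]
          norm_num
        rw [e1, div_le_iff₀ hC]
        have h2 : (j:ℝ) ^ 2 ≤ ((4 ^ j : ℕ) : ℝ) ^ 2 := pow_le_pow_left₀ hj0 hj4' 2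
        have h3 : 1 ≤ j * (C * c ^ 3) := by
          rw [div_le_iff₀ (by positivity)] at g2
          exact g2
        have h4 : (j:ℝ) ≤ j * (j * (C * c ^ 3)) := le_mul_of_one_le_right hj0 h3
        have h5 : c ^ 3 * (j:ℝ) ^ 2 * C ≤ c ^ 3 * ((4 ^ j : ℕ) : ℝ) ^ 2 * C := by gcongr
        have h6 : (j:ℝ) * (j * (C * c ^ 3)) = c ^ 3 * (j:ℝ) ^ 2 * C := by ring
        linarith
      exact le_of_pow_le_pow_left₀ (by norm_num : 3 ≠ 0) (by positivity) h1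
  have hio := TH992.L.io_of hsep hp
  refine ⟨1 / (8 * (2 * C) ^ (1/3:ℝ)), by positivity, ?_⟩
  filter_upwards [hio] with ω hω
  have htend : Tendsto (fun j : ℕ => 3 * 4 ^ j) atTop atTop := by
    apply tendsto_atTop_mono (fun j => ?_) tendsto_id
    have : j < 4 ^ j := Nat.lt_pow_self (by norm_num)
    simp only [id]
    omega
  refine htend.frequently ?_
  refine (hω.and_eventually (eventually_ge_atTop 1)).mono ?_
  rintro j ⟨hj, hj1⟩
  have h1 := Es_Nf hj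
  refine le_trans ?_ h1
  have hj1' : (1:ℝ) ≤ j := by exact_mod_cast hj1
  have hN : (1:ℝ) ≤ ((4 ^ j : ℕ) : ℝ) := by exact_mod_cast Nat.one_le_pow j 4 (by norm_num)
  have h2 : (((3 * 4 ^ j : ℕ)) : ℝ) ^ (4/3:ℝ) ≤ 8 * ((4 ^ j : ℕ) : ℝ) ^ (4/3:ℝ) := by
    refine le_trans (Real.rpow_le_rpow (by positivity) ?_ (by norm_num)) rpow43
    push_cast
    have : (0:ℝ) ≤ 4 ^ j := by positivity
    linarith
  have h3 : Real.log (((3 * 4 ^ j : ℕ)) : ℝ) ≤ ((j:ℝ) + 1) ^ 2 := by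
    have h4 : Real.log (((3 * 4 ^ j : ℕ)) : ℝ) ≤ Real.log ((4:ℝ) ^ (j + 1)) := by
      apply Real.log_le_log (by positivity)
      push_cast
      rw [pow_succ]
      have : (0:ℝ) ≤ 4 ^ j := by positivity
      linarith
    rw [Real.log_pow] at h4
    have h5 : Real.log 4 ≤ 2 := by
      have h6 := Real.log_two_lt_d9
      have h7 : Real.log 4 = 2 * Real.log 2 := by
        rw [show (4:ℝ) = 2 ^ 2 by norm_num, Real.log_pow]
        norm_num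
      rw [h7]; linarith
    push_cast at h4 ⊢
    have h8 : ((j:ℝ) + 1) * Real.log 4 ≤ ((j:ℝ) + 1) * 2 :=
      mul_le_mul_of_nonneg_left h5 (by positivity)
    have h9 : ((j:ℝ) + 1) * 2 ≤ ((j:ℝ) + 1) ^ 2 := by nlinarith
    linarith
  have h3' : 1 ≤ Real.log (((3 * 4 ^ j : ℕ)) : ℝ) := by
    rw [Real.le_log_iff_exp_le (by positivity)]
    have h4 := Real.exp_one_lt_d9
    have h5 : (1:ℝ) ≤ 4 ^ j := one_le_pow₀ (by norm_num)
    push_cast
    linarith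
  have h4 : Real.log (Real.log (((3 * 4 ^ j : ℕ)) : ℝ)) ≤ 2 * Real.log ((j:ℝ) + 1) := by
    have h5 := Real.log_le_log (by linarith) h3
    rw [Real.log_pow] at h5
    exact_mod_cast h5
  have h5 : (Real.log (Real.log (((3 * 4 ^ j : ℕ)) : ℝ))) ^ (1/3:ℝ) ≤
      (2 * C) ^ (1/3:ℝ) * x j := by
    refine (Real.rpow_le_rpow (Real.log_nonneg h3') h4 (by norm_num)).trans (le_of_eq ?_)
    rw [hx]
    simp only
    rw [← Real.mul_rpow (by positivity) (div_nonneg (hlog j) hC.le)]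
    congr 1
    field_simp
  have hP : 0 < (2 * C) ^ (1/3:ℝ) := by positivity
  calc 1 / (8 * (2 * C) ^ (1/3:ℝ)) * (((3 * 4 ^ j : ℕ)) : ℝ) ^ (4/3:ℝ) *
        (Real.log (Real.log (((3 * 4 ^ j : ℕ)) : ℝ))) ^ (1/3:ℝ)
      ≤ 1 / (8 * (2 * C) ^ (1/3:ℝ)) * (8 * ((4 ^ j : ℕ) : ℝ) ^ (4/3:ℝ)) *
        ((2 * C) ^ (1/3:ℝ) * x j) := by
        apply mul_le_mul (mul_le_mul_of_nonneg_left h2 (by positivity)) h5
          (Real.rpow_nonneg (Real.log_nonneg h3') _) (by positivity)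
    _ = x j * ((4 ^ j : ℕ) : ℝ) ^ (4/3:ℝ) := by
        field_simp

end Run7.h537.HF
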