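import Pool.Agent.Run7.h537.HF.Det
import Pool.Agent.Run7.h537.HF.LowGen

/-! Lower bound of the tail in the half-plane. -/

set_option autoImplicit false

namespace Run7.h537.HF

open H974 H12S Finset H984P H984N H342P H984H MeasureTheory
open Run7.h561 Run7.h561.SURG Run7.h537.AT Run7.h537.FL

/-- the number of frontier vertices which the configuration `F'` of the edges `SL n` guarantees -/
noncomputable def cnt (n : ℕ) (F' : Finset Edg) : ℝ :=
  sInf {t : ℝ | ∃ ω : Conf, F1 n ω = F' ∧ t = Nf (3 * n) ω}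

theorem cnt_le (n : ℕ) (ω : Conf) : cnt n (F1 n ω) ≤ Nf (3 * n) ω := by
  refine csInf_le ⟨0, ?_⟩ ⟨ω, rfl, rfl⟩
  rintro t ⟨ω', -, rfl⟩
  exact Nf_nonneg _ _

theorem le_cnt {n : ℕ} {F' : Finset Edg} (hF : F' ⊆ SL n) {t : ℝ}
    (h : ∀ ω : Conf, F1 n ω = F' → t ≤ Nf (3 * n) ω) : t ≤ cnt n F' := by
  classical
  refine le_csInf ?_ ?_
  · refine ⟨_, (fun e => decide ((e.1 - 2 * (n : ℤ), e.2.1, e.2.2) ∈ F')), ?_, rfl⟩
    ext e
    rw [mem_F1]
    simp only [decide_eq_true_eq]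
    rw [show e.1 + 2 * (n : ℤ) - 2 * n = e.1 by ring]
    exact ⟨fun h => h.2, fun h => ⟨hF h, h⟩⟩
  · rintro t' ⟨ω, h1, rfl⟩
    exact h ω h1

theorem RE_SL (n : ℕ) : RE 0 n 0 n ⊆ SL n := by
  rintro ⟨x, y, b'⟩ he
  rw [mem_SL]
  cases b'
  · rw [mem_RE_false] at he ⊢
    simp only [src_mk]
    omega
  · rw [mem_RE_true] at he ⊢
    simp only [src_mk]
    omega

/-- the vertical crossing at the left -/
def R0 (m n : ℕ) (F : Finset Edg) : Prop := TBc (-(4 * (n : ℤ)) - 2 * m) (-(4 * (n : ℤ))) 0 n F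

theorem low_cnt : ∃ (C c : ℝ) (n0 : ℕ), 0 < C ∧ 0 < c ∧
    ∀ n : ℕ, n0 ≤ n → ∀ x : ℝ, 1 ≤ x → x ≤ c * (n:ℝ) ^ (2/3:ℝ) →
      Real.exp (-(C * x ^ 3)) ≤ PQ (1/2) (SL n) (fun F => x * (n:ℝ) ^ (4/3:ℝ) ≤ cnt n F) := by
  obtain ⟨r, r0, r1, hr⟩ := hh_low
  refine low_gen2 SL cnt r0 r1 48 ?_
  intro κ κ0 κ1 hκ t M B a b m I J n y p c0 E0 G hG hp hab ha hm hI hJ hn1 hn2 hn3 hyJ hy6 hyn
  have ham : 24 * m ≤ a * m := Nat.mul_le_mul_right m ha
  have hmU : 24 * (m : ℤ) ≤ (a : ℤ) * m := by exact_mod_cast ham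
  have hm' : (1 : ℤ) ≤ m := by exact_mod_cast hm
  have z1 : 256 * ((I : ℤ) * (a * m)) + 3 * (a * m) ≤ n := by exact_mod_cast hn1
  have z2 : 32 * ((J : ℤ) * (a * m)) + 25 * (a * m) ≤ n := by exact_mod_cast hn2
  have IU : 0 ≤ (I : ℤ) * (a * m) := by positivity
  have JU : 0 ≤ (J : ℤ) * (a * m) := by positivity
  -- the top of the arch is high
  have hY : (n : ℤ) ≤ 2 * (24 * ((a : ℤ) * m) + 32 * ((J : ℤ) * (a * m)) - m) := by
    have h1 : n < (64 * J + 1) * (a * m) :=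
      hn3.trans_le (Nat.mul_le_mul_right _ (by omega))
    have h2 : (64 * J + 1) * (a * m) = 64 * (J * (a * m)) + a * m := by ring
    rw [h2] at h1
    zify at h1
    omega
  have h600 : 600 * ((a : ℤ) * m) ≤ n := by
    have : 600 * (a * m) ≤ n := (Nat.mul_le_mul_right _ hy6).trans hyn
    exact_mod_cast this
  have z3 : (n : ℤ) ≤ m * (((y + 1) * a : ℕ) : ℤ) := by
    have : n ≤ m * ((y + 1) * a) := by
      have e : m * ((y + 1) * a) = (y + 1) * (a * m) := by ring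
      omega
    exact_mod_cast this
  have z4 : 6 * (n : ℤ) ≤ m * ((6 * ((y + 1) * a) : ℕ) : ℤ) := by
    push_cast at z3 ⊢
    linarith
  have hTA : TA a m I J (-(5 * (n : ℤ))) n n ⊆ SL n := by
    rintro ⟨x, y', b'⟩ he
    unfold TA at he
    rw [Finset.mem_union, Finset.mem_union] at he
    rw [mem_SL]
    cases b'
    · rw [mem_LRE_false, mem_TBE_false, mem_TBE_false] at he
      rw [mem_RE_false]
      simp only [src_mk]
      omega
    · rw [mem_LRE_true, mem_TBE_true, mem_TBE_true] at he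
      rw [mem_RE_true]
      simp only [src_mk]
      omega
  have hT0 : TBE (-(4 * (n : ℤ)) - 2 * m) (-(4 * (n : ℤ))) 0 n ⊆ SL n := by
    rintro ⟨x, y', b'⟩ he
    rw [mem_SL]
    cases b'
    · rw [mem_TBE_false] at he
      rw [mem_RE_false]
      simp only [src_mk]
      omega
    · rw [mem_TBE_true] at he
      rw [mem_RE_true]
      simp only [src_mk]
      omega
  set A : Finset Edg → Prop := fun F => Arc a m I J (-(5 * (n : ℤ))) n n F ∧ R0 m n F with hA
  set TT : Finset Edg := TA a m I J (-(5 * (n : ℤ))) n n ∪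
    TBE (-(4 * (n : ℤ)) - 2 * m) (-(4 * (n : ℤ))) 0 n with hTT
  have p1 := Arc_pr r0 hr (a := a) (I := I) (J := J) (j := 6 * ((y + 1) * a))
    (X0 := -(5 * (n : ℤ))) (X1 := n) (N := n) hm (by omega) (by omega) (by omega) (by omega) hTA
  have p0 : r ^ (2 * ((y + 1) * a) + 1) ≤ PQ (1/2) (SL n) (R0 m n) := by
    refine (hr m ((y + 1) * a) n hm (by omega) z3).trans (le_of_eq ?_)
    unfold R0
    rw [PQ, pr_TBc (1/2) hT0]
    congr 1
    · ring
  have pA : r ^ (48 * ((y + 1) * a) + 48) ≤ PQ (1/2) (SL n) A := by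
    have h1 := Pr_harris ok2 (S := SL n) (A := Arc a m I J (-(5 * (n : ℤ))) n n) (B := R0 m n)
      (fun F F' h _ hF => Arc_mono F F' h hF) (fun F F' h _ hF => TBc.mono h hF)
    have h2 : r ^ (6 * (6 * ((y + 1) * a)) + 3) * r ^ (2 * ((y + 1) * a) + 1) ≤
        PQ (1/2) (SL n) (Arc a m I J (-(5 * (n : ℤ))) n n) * PQ (1/2) (SL n) (R0 m n) :=
      mul_le_mul p1 p0 (by positivity) ((by positivity : (0:ℝ) ≤ _).trans p1)
    rw [← pow_add] at h2
    refine (pow_le_pow_of_le_one r0.le r1 ?_).trans (h2.trans h1)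
    omega
  have p2 := comb_pr' κ0 κ1 hκ hp hab ha hm hJ (n := n) (I := I) (by omega) hn2 hG.toGLc
    (RE_SL n) TT A (by
      rw [hTT, Finset.disjoint_union_left]
      refine ⟨TA_T2 hab ha hm, ?_⟩
      rw [Finset.disjoint_left]
      intro e he he'
      obtain ⟨w, ⟨s', hs', w1, w2, w3⟩, h2, -⟩ := T2_pos hab hm he'
      rw [sd_le] at h2
      have k2 := mulU0 a m s'
      have := tbe_src he
      omega) (by
      intro g hg1 hg2
      rw [hTT, Finset.disjoint_union_left]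
      refine ⟨TA_TG ha hm g hg1 hg2, ?_⟩
      rw [Finset.disjoint_left]
      intro e he he'
      have h := TGs_pos ha he'
      simp only [AT.cen] at h
      have k2 := mulU0 a m g.1
      have := tbe_src he
      omega) (by
      intro F
      simp only [hA]
      rw [Arc_loc F, Arc_loc (F ∩ TT)]
      have e1 : F ∩ TT ∩ TA a m I J (-(5 * (n : ℤ))) n n = F ∩ TA a m I J (-(5 * (n : ℤ))) n n := by
        rw [Finset.inter_assoc, Finset.inter_eq_right.2
          (show TA a m I J (-(5 * (n : ℤ))) n n ⊆ TT from Finset.subset_union_left)]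
      rw [e1]
      unfold R0 TBc
      rw [inter_loc (F := F) (T' := TT) Finset.subset_union_right]) (by
      intro F F' h hF
      exact ⟨Arc_mono F F' h hF.1, hF.2.mono h⟩)
  refine le_trans (mul_le_mul_of_nonneg_right pA (by positivity)) (p2.trans (Pr_mono ok2 ?_))
  rintro F hF ⟨hcomb, h1, h2⟩
  have h3 : ((I * J : ℕ) : ℝ) * (c0 * (m : ℝ) ^ (4 / 3 : ℝ)) / 25 ≤ cnt n F := by
    refine le_cnt hF fun ω hω => ?_
    rw [← hω] at hcomb h1 h2
    have := det hG hab ha hm hI hJ z1 z2 hcomb h1 h2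
    linarith
  linarith

end Run7.h537.HF
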