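import Pool.Agent.Run7.h537.HF.LIL

/-! Measurability, and the frontier in plain words. -/

set_option autoImplicit false

namespace Run7.h537.HF

open H974 Finset H342P H984P H984H MeasureTheory
open Run7.h537.FL

theorem meas_rtg {α : Type*} [Countable α] {R : Conf → α → α → Prop}
    (hR : ∀ a b, MeasurableSet {ω | R ω a b}) (a b : α) :
    MeasurableSet {ω | Relation.ReflTransGen (R ω) a b} := by
  classical
  let Pn : ℕ → α → Set Conf := fun n => Nat.rec (fun b => {_ω | a = b})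
    (fun _ ih b => ⋃ c, (ih c ∩ {ω | R ω c b})) n
  have h0 : ∀ b, Pn 0 b = {_ω | a = b} := fun b => rfl
  have hs : ∀ n b, Pn (n + 1) b = ⋃ c, (Pn n c ∩ {ω | R ω c b}) := fun n b => rfl
  have hm : ∀ n b, MeasurableSet (Pn n b) := by
    intro n
    induction n with
    | zero => intro b; rw [h0]; exact MeasurableSet.const _
    | succ n ih =>
      intro b
      rw [hs]
      exact MeasurableSet.iUnion fun c => (ih c).inter (hR c b)
  have he : {ω | Relation.ReflTransGen (R ω) a b} = ⋃ n, Pn n b := by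
    ext ω
    rw [Set.mem_iUnion]
    constructor
    · intro h
      have h' : Relation.ReflTransGen (R ω) a b := h
      induction h' with
      | refl => exact ⟨0, rfl⟩
      | @tail c b _ h2 ih =>
        obtain ⟨n, hn⟩ := ih (by assumption)
        refine ⟨n + 1, ?_⟩
        rw [hs, Set.mem_iUnion]
        exact ⟨c, hn, h2⟩
    · rintro ⟨n, hn⟩
      show Relation.ReflTransGen (R ω) a b
      induction n generalizing b with
      | zero =>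
        have : a = b := hn
        rw [this]
      | succ n ih =>
        rw [hs, Set.mem_iUnion] at hn
        obtain ⟨c, h1, h2⟩ := hn
        exact (ih c h1).tail h2
  rw [he]
  exact MeasurableSet.iUnion fun n => hm n b

theorem meas_opn (e : Edg) : MeasurableSet {ω : Conf | e ∈ opn ω} := by
  have h1 : MeasurableSet {ω : Conf | ω e = true} := by
    have h : Measurable (fun ω : Conf => ω e) := measurable_pi_apply e
    exact h (MeasurableSet.of_discrete (s := {true}))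
  have : {ω : Conf | e ∈ opn ω} = {_ω : Conf | e.2.1 = 0 ∧ e.2.2 = true ∧ e.1 < 0} ∪
      ({_ω : Conf | 0 ≤ e.2.1 ∧ ¬ (e.2.1 = 0 ∧ e.2.2 = true)} ∩ {ω : Conf | ω e = true}) := by
    ext ω
    constructor
    · rintro (h | ⟨h2, h3, h4⟩)
      · exact Or.inl h
      · exact Or.inr ⟨⟨h2, h3⟩, h4⟩
    · rintro (h | ⟨⟨h2, h3⟩, h4⟩)
      · exact Or.inl h
      · exact Or.inr ⟨h2, h3, h4⟩
  rw [this]
  exact (MeasurableSet.const _).union ((MeasurableSet.const _).inter h1)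

theorem meas_Reach (v w : Vtx) : MeasurableSet {ω : Conf | Reach (opn ω) v w} := by
  refine meas_rtg (R := fun ω => Adj (opn ω)) ?_ v w
  intro a b
  have : {ω : Conf | Adj (opn ω) a b} = ⋃ e : Edg, ({ω : Conf | e ∈ opn ω} ∩
      {_ω : Conf | (src e = a ∧ tgt e = b) ∨ (src e = b ∧ tgt e = a)}) := by
    ext ω
    rw [Set.mem_iUnion]
    constructor
    · rintro ⟨e, h1, h2⟩
      exact ⟨e, h1, h2⟩
    · rintro ⟨e, h1, h2⟩
      exact ⟨e, h1, h2⟩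
  rw [this]
  exact MeasurableSet.iUnion fun e => (meas_opn e).inter (MeasurableSet.const _)

/-- nearest neighbours -/
def Nbr (u v : ℤ × ℤ) : Prop := |u.1 - v.1| + |u.2 - v.2| = 1

theorem nbr_iff {u v : Vtx} : Nbr u v ↔ ∃ e : Edg, (src e = u ∧ tgt e = v) ∨
    (src e = v ∧ tgt e = u) := by
  obtain ⟨a, b⟩ := u
  obtain ⟨c, d⟩ := v
  unfold Nbr
  simp only
  constructor
  · intro h
    have h1 : (a = c ∧ (d = b + 1 ∨ b = d + 1)) ∨ (b = d ∧ (c = a + 1 ∨ a = c + 1)) := by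
      rcases abs_cases (a - c) with ⟨h2, h3⟩ | ⟨h2, h3⟩ <;>
        rcases abs_cases (b - d) with ⟨h4, h5⟩ | ⟨h4, h5⟩ <;> omega
    rcases h1 with ⟨rfl, rfl | rfl⟩ | ⟨rfl, rfl | rfl⟩
    · exact ⟨(a, b, false), Or.inl ⟨rfl, by simp⟩⟩
    · exact ⟨(a, d, false), Or.inr ⟨rfl, by simp⟩⟩
    · exact ⟨(a, b, true), Or.inl ⟨rfl, by simp⟩⟩
    · exact ⟨(c, b, true), Or.inr ⟨rfl, by simp⟩⟩
  · rintro ⟨⟨x, y, t⟩, h⟩
    cases t
    · simp only [src_mk, tgt_false, Prod.mk.injEq] at h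
      rcases h with ⟨⟨rfl, rfl⟩, rfl, rfl⟩ | ⟨⟨rfl, rfl⟩, rfl, rfl⟩ <;> simp
    · simp only [src_mk, tgt_true, Prod.mk.injEq] at h
      rcases h with ⟨⟨rfl, rfl⟩, rfl, rfl⟩ | ⟨⟨rfl, rfl⟩, rfl, rfl⟩ <;> simp

/-- lattice paths off `B` -/
def Off (B : Set (ℤ × ℤ)) : ℤ × ℤ → ℤ × ℤ → Prop :=
  Relation.ReflTransGen (fun u v => Nbr u v ∧ u ∉ B ∧ v ∉ B)

theorem off_iff {B : Set (ℤ × ℤ)} {p q : ℤ × ℤ} :
    Off B p q ↔ Reach {e | src e ∉ B ∧ tgt e ∉ B} p q := by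
  unfold Off Reach
  have : (fun u v => Nbr u v ∧ u ∉ B ∧ v ∉ B) = Adj {e | src e ∉ B ∧ tgt e ∉ B} := by
    funext u v
    apply propext
    constructor
    · rintro ⟨h1, h2, h3⟩
      obtain ⟨e, ⟨h4, h5⟩ | ⟨h4, h5⟩⟩ := nbr_iff.1 h1
      · exact ⟨e, ⟨by rw [h4]; exact h2, by rw [h5]; exact h3⟩, Or.inl ⟨h4, h5⟩⟩
      · exact ⟨e, ⟨by rw [h4]; exact h3, by rw [h5]; exact h2⟩, Or.inr ⟨h4, h5⟩⟩
    · rintro ⟨e, ⟨h1, h2⟩, ⟨h4, h5⟩ | ⟨h4, h5⟩⟩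
      · exact ⟨nbr_iff.2 ⟨e, Or.inl ⟨h4, h5⟩⟩, by rw [← h4]; exact h1, by rw [← h5]; exact h2⟩
      · exact ⟨nbr_iff.2 ⟨e, Or.inr ⟨h4, h5⟩⟩, by rw [← h5]; exact h2, by rw [← h4]; exact h1⟩
  rw [this]

theorem accS_plain {K B Q : Set Vtx} {w : Vtx} : AccS K B Q w ↔
    w ∈ K ∧ ∃ p q : ℤ × ℤ, Nbr w p ∧ p ∉ B ∧ q ∈ Q ∧ Off B p q := by
  unfold AccS
  constructor
  · rintro ⟨h1, e, p, q, h2, h3, h4, h5⟩
    refine ⟨h1, p, q, nbr_iff.2 ⟨e, ?_⟩, h3, h4, off_iff.2 h5⟩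
    rw [Plain.fst_eq, Plain.snd_eq] at h2
    exact h2
  · rintro ⟨h1, p, q, h2, h3, h4, h5⟩
    obtain ⟨e, he⟩ := nbr_iff.1 h2
    refine ⟨h1, e, p, q, ?_, h3, h4, off_iff.1 h5⟩
    rw [Plain.fst_eq, Plain.snd_eq]
    exact he

theorem Cm_eq (ω : Conf) : Cm ω = {v | Reach (opn ω) (0, 0) v} := by
  ext v
  constructor
  · rintro ⟨w, rfl, h⟩
    exact h
  · intro h
    exact ⟨(0, 0), rfl, h⟩

theorem meas_B (v : Vtx) : MeasurableSet {ω : Conf | v ∉ Cm ω ∪ Oh} := by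
  have : {ω : Conf | v ∉ Cm ω ∪ Oh} = ({ω : Conf | Reach (opn ω) (0, 0) v} ∪ {_ω | v ∈ Oh})ᶜ := by
    ext ω
    have e : v ∈ Cm ω ↔ Reach (opn ω) (0, 0) v := by rw [Cm_eq]; exact Iff.rfl
    show ¬ (v ∈ Cm ω ∨ v ∈ Oh) ↔ ¬ (Reach (opn ω) (0, 0) v ∨ v ∈ Oh)
    rw [e]
  rw [this]
  exact ((meas_Reach _ _).union (MeasurableSet.const _)).compl

theorem meas_AccS (w : Vtx) : MeasurableSet {ω : Conf | AccS (Cm ω) (Cm ω ∪ Oh) Qh w} := by
  have h1 : ∀ p q : ℤ × ℤ, MeasurableSet {ω : Conf | Off (Cm ω ∪ Oh) p q} := by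
    intro p q
    refine meas_rtg (R := fun ω u v => Nbr u v ∧ u ∉ Cm ω ∪ Oh ∧ v ∉ Cm ω ∪ Oh) ?_ p q
    intro u v
    exact (MeasurableSet.const _).inter ((meas_B u).inter (meas_B v))
  have h2 : {ω : Conf | AccS (Cm ω) (Cm ω ∪ Oh) Qh w} = {ω : Conf | Reach (opn ω) (0, 0) w} ∩
      ⋃ p : ℤ × ℤ, ⋃ q : ℤ × ℤ, ({_ω : Conf | Nbr w p} ∩ ({ω : Conf | p ∉ Cm ω ∪ Oh} ∩
        ({_ω : Conf | q ∈ Qh} ∩ {ω : Conf | Off (Cm ω ∪ Oh) p q}))) := by
    ext ω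
    have e : AccS (Cm ω) (Cm ω ∪ Oh) Qh w ↔ w ∈ Cm ω ∧ ∃ p q : ℤ × ℤ, Nbr w p ∧
        p ∉ Cm ω ∪ Oh ∧ q ∈ Qh ∧ Off (Cm ω ∪ Oh) p q := accS_plain
    constructor
    · intro h
      obtain ⟨h3, p, q, h4⟩ := e.1 h
      rw [Cm_eq] at h3
      exact ⟨h3, Set.mem_iUnion.2 ⟨p, Set.mem_iUnion.2 ⟨q, h4⟩⟩⟩
    · rintro ⟨h3, h4⟩
      obtain ⟨p, h5⟩ := Set.mem_iUnion.1 h4
      obtain ⟨q, h6⟩ := Set.mem_iUnion.1 h5
      refine e.2 ⟨?_, p, q, h6⟩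
      rw [Cm_eq]
      exact h3
  rw [h2]
  exact (meas_Reach _ _).inter (MeasurableSet.iUnion fun p => MeasurableSet.iUnion fun q =>
    (MeasurableSet.const _).inter ((meas_B p).inter ((MeasurableSet.const _).inter (h1 p q))))

theorem meas_Nf (n : ℕ) : Measurable (Nf n) := by
  classical
  have h : Nf n = fun ω => ∑ w ∈ bxN n,
      Set.indicator {ω : Conf | AccS (Cm ω) (Cm ω ∪ Oh) Qh w} (fun _ => (1:ℝ)) ω := by
    funext ω
    unfold Nf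
    rw [Finset.card_filter]
    push_cast
    refine Finset.sum_congr rfl fun w _ => ?_
    by_cases h1 : AccS (Cm ω) (Cm ω ∪ Oh) Qh w
    · rw [if_pos h1, Set.indicator_of_mem (show ω ∈ {ω : Conf | AccS (Cm ω) (Cm ω ∪ Oh) Qh w} from h1)]
    · rw [if_neg h1, Set.indicator_of_notMem
        (show ω ∉ {ω : Conf | AccS (Cm ω) (Cm ω ∪ Oh) Qh w} from h1)]
  rw [h]
  exact Finset.measurable_sum _ fun w _ => measurable_const.indicator (meas_AccS w)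

end Run7.h537.HF
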