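import Pool.Agent.Run7.h537.HF.Fam
import Pool.Agent.Run7.h537.HF.Low
import Pool.Agent.TH992.L.Io

/-! The tails and the law of the iterated logarithm. -/

set_option autoImplicit false

namespace Run7.h537.HF

open H974 H12S Finset H389NS H984P H984N H342P H984H MeasureTheory Filter Topology
open Pool.Agent.W424.OD Pool.Agent.W801.RS.LOWA
open TH992.T (Bq mem_Bq card_Bq Nb Yb Fam RE_sub_RE)
open Run7.h537.AT Run7.h537.FL
open Run7.h561 (Cu sd_le le_sd)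

theorem up_h {C : ℝ} (hC : 1 ≤ C) (hU : ∀ (c : ℤ × ℤ) (k : ℕ), 1 ≤ k → ∀ S : Finset Edg,
    blk c k ⊆ S → PQ (1/2) S (fun F => A3v c 1 k ↑F) ≤ C * (k : ℝ) ^ (-(2/3):ℝ)) :
    ∃ K c : ℝ, 0 < K ∧ 0 < c ∧ ∀ n : ℕ, 1 ≤ n → ∀ x : ℝ, 0 ≤ x →
      perc.real {ω | x * (n:ℝ) ^ (4/3:ℝ) ≤ Nf n ω} ≤ K * Real.exp (-(c * x ^ 3)) := by
  obtain ⟨l, hl, ht⟩ := TH992.T.tail1 (a := 2/3) (C0 := 40 * C) (by norm_num) (by norm_num) 1
    (by linarith)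
  obtain ⟨c, hc⟩ : ∃ c : ℝ, c = 1 / (648 * l ^ 3) := ⟨_, rfl⟩
  have hc0 : 0 < c := by rw [hc]; positivity
  refine ⟨Real.exp (c * 216) + 9, c, by positivity, hc0, fun n hn x hx => ?_⟩
  have hE := Real.exp_pos (-(c * x ^ 3))
  rcases le_or_gt x 6 with hx6 | hx6
  · refine (measureReal_le_one (μ := perc)).trans ?_
    have h1 : x ^ 3 ≤ 216 := by
      calc x ^ 3 ≤ 6 ^ 3 := pow_le_pow_left₀ hx hx6 3
        _ = 216 := by norm_num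
    have h2 : 1 ≤ Real.exp (c * 216) * Real.exp (-(c * x ^ 3)) := by
      rw [← Real.exp_add]
      apply Real.one_le_exp
      nlinarith
    nlinarith
  · have hn0 : (0:ℝ) < n := by exact_mod_cast hn
    have hn1 : (1:ℝ) ≤ n := by exact_mod_cast hn
    have hnn : (n:ℝ) ≤ (n:ℝ) ^ (4/3:ℝ) := by
      calc (n:ℝ) = (n:ℝ) ^ (1:ℝ) := (Real.rpow_one _).symm
        _ ≤ _ := Real.rpow_le_rpow_of_exponent_le hn1 (by norm_num)
    have h1 : perc.real {ω | x * (n:ℝ) ^ (4/3:ℝ) ≤ Nf n ω} ≤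
        perc.real {ω | x / 2 * (n:ℝ) ^ (4/3:ℝ) ≤
          Nb (xh n) (2 * n + 1) (-(n : ℤ)) 0 (cut ω (2 * (n : ℤ)))} := by
      refine measureReal_mono ?_
      intro ω hω
      simp only [Set.mem_ofPred_eq] at hω ⊢
      have h2 := hω.trans (Nf_le n ω)
      nlinarith
    refine h1.trans ?_
    rw [perc_cut (2 * (n : ℤ)) (fun F => x / 2 * (n:ℝ) ^ (4/3:ℝ) ≤
      Nb (xh n) (2 * n + 1) (-(n : ℤ)) 0 F)]
    have hs0 : (0:ℝ) < ((2 * n + 1 : ℕ) : ℝ) := by positivity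
    have h4 := ht _ _ _ (xh_fam hC hU n) (2 * n + 1) (-(n : ℤ)) 0
      (x / 2 * (n:ℝ) ^ (4/3:ℝ) / ((2 * n + 1 : ℕ) : ℝ) ^ (2 - 2/3:ℝ)) (by omega) (by positivity)
    have e0 : (2 / (2/3:ℝ)) = ((3:ℕ):ℝ) := by norm_num
    rw [e0, Real.rpow_natCast] at h4
    refine le_trans (Pr_mono ok2 fun F _ hF => ?_) (h4.trans ?_)
    · unfold Yb
      exact div_le_div_of_nonneg_right hF (by positivity)
    · have e1 : (x / 2 * (n:ℝ) ^ (4/3:ℝ) / ((2 * n + 1 : ℕ) : ℝ) ^ (2 - 2/3:ℝ) / l) ^ 3 =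
          x ^ 3 / 8 * ((n:ℝ) / ((2 * n + 1 : ℕ) : ℝ)) ^ 4 / l ^ 3 := by
        rw [div_pow, div_pow, mul_pow, div_pow]
        have e2 : ((n:ℝ) ^ (4/3:ℝ)) ^ 3 = (n:ℝ) ^ 4 := by
          rw [← Real.rpow_natCast, ← Real.rpow_mul hn0.le]
          norm_num
        have e3 : (((2 * n + 1 : ℕ) : ℝ) ^ (2 - 2/3:ℝ)) ^ 3 = ((2 * n + 1 : ℕ) : ℝ) ^ 4 := by
          rw [← Real.rpow_natCast, ← Real.rpow_mul hs0.le]
          norm_num
        rw [e2, e3, div_pow]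
        ring
      rw [e1]
      have h5 : (1/3:ℝ) ≤ (n:ℝ) / ((2 * n + 1 : ℕ) : ℝ) := by
        rw [le_div_iff₀ hs0]
        push_cast
        linarith
      have h6 : (1/3:ℝ) ^ 4 ≤ ((n:ℝ) / ((2 * n + 1 : ℕ) : ℝ)) ^ 4 :=
        pow_le_pow_left₀ (by norm_num) h5 4
      have h7 : c * x ^ 3 = x ^ 3 / 8 * (1/3:ℝ) ^ 4 / l ^ 3 := by
        rw [hc]; ring
      have h8 : x ^ 3 / 8 * (1/3:ℝ) ^ 4 / l ^ 3 ≤
          x ^ 3 / 8 * ((n:ℝ) / ((2 * n + 1 : ℕ) : ℝ)) ^ 4 / l ^ 3 :=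
        div_le_div_of_nonneg_right (mul_le_mul_of_nonneg_left h6 (by positivity)) (by positivity)
      have h9 : Real.exp (-(x ^ 3 / 8 * ((n:ℝ) / ((2 * n + 1 : ℕ) : ℝ)) ^ 4 / l ^ 3)) ≤
          Real.exp (-(c * x ^ 3)) := by
        apply Real.exp_le_exp.2
        rw [h7]
        linarith
      have h10 : 0 ≤ Real.exp (c * 216) * Real.exp (-(c * x ^ 3)) := by positivity
      nlinarith

/-! ### Lower tail bound -/

/-- the edges of the comb and the arch -/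
noncomputable def SG (n : ℕ) : Finset Edg := (trl (2 * (n : ℤ)) 0).mp (SL n)

theorem mem_SG {n : ℕ} {e : Edg} : e ∈ SG n ↔ (e.1 - 2 * (n : ℤ), e.2.1, e.2.2) ∈ SL n := by
  unfold SG
  have h := Run7.h561.SURG.mp_trl_mem (2 * (n : ℤ), 0) (SL n) e
  simp only [sub_zero] at h
  exact h

theorem SG_box (n : ℕ) : SG n ⊆ (bx (3 * (n : ℤ))).edges := by
  intro e he
  rw [mem_SG, mem_SL] at he
  show e ∈ RE (-(3 * (n : ℤ))) (3 * n) 0 (3 * n)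
  obtain ⟨x, y, b⟩ := e
  have h := he.1
  cases b
  · rw [mem_RE_false] at h ⊢; simp only at h; omega
  · rw [mem_RE_true] at h ⊢; simp only at h; omega

/-- the event of scale `n` -/
def Es (n : ℕ) (x : ℝ) (F : Finset Edg) : Prop :=
  x * (n:ℝ) ^ (4/3:ℝ) ≤ cnt n ((trl (-(2 * (n : ℤ))) 0).mp F ∩ SL n)

theorem Es_loc (n : ℕ) (x : ℝ) (F : Finset Edg) : Es n x F ↔ Es n x (F ∩ SG n) := by
  unfold Es SG
  have h : (trl (-(2 * (n : ℤ))) 0).mp (F ∩ (trl (2 * (n : ℤ)) 0).mp (SL n)) ∩ SL n =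
      (trl (-(2 * (n : ℤ))) 0).mp F ∩ SL n := by
    have e := Run7.h561.SURG.trl_cancel (2 * (n : ℤ), 0) (SL n)
    simp only [neg_zero] at e
    rw [LSym.mp_inter, e, Finset.inter_assoc, Finset.inter_self]
  rw [h]

theorem Es_pr (n : ℕ) (x : ℝ) : H984H.P (SG n) (Es n x) =
    PQ (1/2) (SL n) (fun F => x * (n:ℝ) ^ (4/3:ℝ) ≤ cnt n F) := by
  unfold H984H.P SG
  have h := LSym.pr (trl (2 * (n : ℤ)) 0) (1/2) (SL n) (Es n x)
  refine h.trans ?_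
  unfold PQ
  apply Pr_congr
  intro F hF
  unfold Es
  have e := Run7.h561.SURG.trl_cancel (2 * (n : ℤ), 0) F
  simp only [neg_zero] at e
  rw [e, Finset.inter_eq_left.2 hF]

theorem Es_perc (n : ℕ) (x : ℝ) :
    perc.real {ω | Es n x (cut ω (3 * (n : ℤ)))} =
      PQ (1/2) (SL n) (fun F => x * (n:ℝ) ^ (4/3:ℝ) ≤ cnt n F) := by
  rw [perc_cut (3 * (n : ℤ)) (Es n x), ← Es_pr]
  exact Pr_local (SG_box n) (fun F _ => Es_loc n x F)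

theorem Es_Nf {n : ℕ} {x : ℝ} {ω : Conf} (h : Es n x (cut ω (3 * (n : ℤ)))) :
    x * (n:ℝ) ^ (4/3:ℝ) ≤ Nf (3 * n) ω := by
  unfold Es at h
  exact h.trans (cnt_le n ω)

theorem rpow43 {n : ℕ} : ((4:ℝ) * n) ^ (4/3:ℝ) ≤ 8 * (n:ℝ) ^ (4/3:ℝ) := by
  rw [Real.mul_rpow (by norm_num) (by positivity)]
  apply mul_le_mul_of_nonneg_right _ (by positivity)
  have h1 : (4:ℝ) ^ (4/3:ℝ) ≤ (4:ℝ) ^ (3/2:ℝ) :=
    Real.rpow_le_rpow_of_exponent_le (by norm_num) (by norm_num)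
  have h2 : (4:ℝ) ^ (3/2:ℝ) = 8 := by
    rw [show (4:ℝ) = 2 ^ (2:ℝ) by norm_num, ← Real.rpow_mul (by norm_num)]
    norm_num
  linarith

theorem low_h : ∃ (C c : ℝ) (n0 : ℕ), 0 < C ∧ 0 < c ∧
    ∀ n : ℕ, n0 ≤ n → ∀ x : ℝ, 1 ≤ x → x ≤ c * (n:ℝ) ^ (2/3:ℝ) →
      Real.exp (-(C * x ^ 3)) ≤ perc.real {ω | x * (n:ℝ) ^ (4/3:ℝ) ≤ Nf n ω} := by
  obtain ⟨C, c, n0, hC, hc, h⟩ := low_cnt
  refine ⟨512 * C, c / 32, 3 * (n0 + 2), by positivity, by positivity, fun n hn x hx1 hx2 => ?_⟩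
  obtain ⟨k, hk⟩ : ∃ k : ℕ, k = n / 3 := ⟨_, rfl⟩
  have hk1 : n0 ≤ k := by omega
  have hk2 : 3 * k ≤ n := by omega
  have hk3 : n ≤ 4 * k := by omega
  have hn0 : (0:ℝ) < n := by
    have : 0 < n := by omega
    exact_mod_cast this
  have hk4 : (n:ℝ) ≤ 4 * k := by exact_mod_cast hk3
  have hk0 : (0:ℝ) < k := by linarith
  have h1 := h k hk1 (8 * x) (by linarith) (by
    have h2 : (n:ℝ) ^ (2/3:ℝ) ≤ 4 * (k:ℝ) ^ (2/3:ℝ) := by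
      refine (Real.rpow_le_rpow hn0.le hk4 (by norm_num)).trans ?_
      rw [Real.mul_rpow (by norm_num) hk0.le]
      apply mul_le_mul_of_nonneg_right _ (by positivity)
      calc (4:ℝ) ^ (2/3:ℝ) ≤ (4:ℝ) ^ (1:ℝ) :=
            Real.rpow_le_rpow_of_exponent_le (by norm_num) (by norm_num)
        _ = 4 := by norm_num
    have h3 := mul_le_mul_of_nonneg_left h2 (by positivity : (0:ℝ) ≤ c / 32)
    linarith)
  have e1 : C * (8 * x) ^ 3 = 512 * C * x ^ 3 := by ring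
  rw [e1, ← Es_perc] at h1
  refine h1.trans (measureReal_mono ?_)
  intro ω hω
  simp only [Set.mem_ofPred_eq] at hω ⊢
  have h4 := Es_Nf hω
  refine le_trans ?_ (h4.trans (Nf_mono hk2 ω))
  have h5 : (n:ℝ) ^ (4/3:ℝ) ≤ 8 * (k:ℝ) ^ (4/3:ℝ) :=
    (Real.rpow_le_rpow hn0.le hk4 (by norm_num)).trans rpow43
  nlinarith

end Run7.h537.HF
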