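import Pool.Agent.Run7.h537.HF.Cnt
import Pool.Agent.Run7.h537.FL.Ev

/-! Transfer of the comb and of the arch between configurations. -/

set_option autoImplicit false

namespace Run7.h537.HF

open H974 H12S Finset H984P H984N H342P
open Run7.h561 Run7.h561.SURG Run7.h537.AT Run7.h537.FL

theorem src2 (e : Edg) : (src e).2 = e.2.1 := by
  obtain ⟨x, y, b⟩ := e; rfl

theorem src1 (e : Edg) : (src e).1 = e.1 := by
  obtain ⟨x, y, b⟩ := e; rfl

theorem comb_tr {a b m I J : ℕ} {p : ℝ} {G : Finset Edg → Prop} (hG : GLc a m p G)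
    (hab : a = 2 * b) (ha : 24 ≤ a) (hm : 1 ≤ m) (hJ : 1 ≤ J) {F1 F2 : Finset Edg}
    (h1 : ∀ e : Edg, e ∈ F1 → 0 < e.2.1 → e ∈ F2)
    (h2 : ∀ e : Edg, e ∈ F2 → (e ∈ T2 a b m I J ∨ ∃ g : ℕ × ℕ, g.1 < I ∧ g.2 < J ∧ e ∈ TGs a m g) →
      e ∈ F1) (h : Comb a b m I J G F1) : Comb a b m I J G F2 := by
  have ham : 24 * m ≤ a * m := Nat.mul_le_mul_right m ha
  have hmU : 24 * (m : ℤ) ≤ (a : ℤ) * m := by exact_mod_cast ham
  have hm' : (1 : ℤ) ≤ m := by exact_mod_cast hm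
  obtain ⟨hO, hD, hM⟩ := h
  refine ⟨fun q hq => ?_, fun q hq => ?_, fun g hg => ?_⟩
  · have h3 := hO q hq
    rw [bsu_local' (T := T1 a b m I J) (fun e he => by
      unfold T1
      rw [Finset.mem_biUnion]
      exact ⟨q, hq, he⟩)] at h3
    refine BSU_mono (fun e he => ?_) h3
    rw [Finset.mem_inter] at he
    refine h1 e he.1 ?_
    obtain ⟨v, hv, h4, -⟩ := T1_pos hab hm hJ ham he.2
    have h5 := OA_bd hJ ham hv
    rw [sd_le, src2] at h4
    omega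
  · have h3 := hD q hq
    rw [bsd_local' (T := T2 a b m I J) (fun e he => by
      unfold T2
      rw [Finset.mem_biUnion]
      refine ⟨q, hq, ?_⟩
      rw [show 3 * (2 * m) = 6 * m by ring] at he
      exact he)]
    refine bsd_dec (fun e he => ?_) h3
    rw [Finset.mem_inter] at he
    exact h2 e he.1 (Or.inl he.2)
  · have h3 := hM g hg
    rw [Finset.mem_product, Finset.mem_range, Finset.mem_range] at hg
    have lG : ∀ (F : Finset Edg), G ((trl (-(AT.cen a m g).1) (-(AT.cen a m g).2)).mp F) ↔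
        G ((trl (-(AT.cen a m g).1) (-(AT.cen a m g).2)).mp (F ∩ TGs a m g)) := by
      intro F
      unfold TGs
      rw [LSym.mp_inter, trl_cancel]
      exact hG.loc _
    rw [lG] at h3 ⊢
    have e : F1 ∩ TGs a m g = F2 ∩ TGs a m g := by
      ext e
      rw [Finset.mem_inter, Finset.mem_inter]
      constructor
      · rintro ⟨e1, e2⟩
        refine ⟨h1 e e1 ?_, e2⟩
        have h4 := TGs_pos ha e2
        simp only [AT.cen] at h4
        rw [src2] at h4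
        have k4 := mulU0 a m g.2
        omega
      · rintro ⟨e1, e2⟩
        exact ⟨h2 e e1 (Or.inr ⟨g, hg.1, hg.2, e2⟩), e2⟩
    rw [← e]
    exact h3

/-- an edge of a vertical strip crossing or of a high horizontal strip is not an edge of the axis -/
theorem lrc_tr {X0 X1 c d : ℤ} {F1 F2 : Finset Edg} (hc : 0 < c)
    (h1 : ∀ e : Edg, e ∈ F1 → ¬ (e.2.1 = 0 ∧ e.2.2 = true) → e ∈ F2) (h : LRc X0 X1 c d F1) :
    LRc X0 X1 c d F2 := by
  obtain ⟨y, y', a1, a2, a3⟩ := h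
  refine ⟨y, y', a1, a2, a3.mono ?_⟩
  rintro e ⟨e1, e2⟩
  refine ⟨?_, e2⟩
  rw [Finset.mem_coe] at e1 e2 ⊢
  refine h1 e e1 ?_
  rintro ⟨e3, -⟩
  have := lre_src e2
  rw [src2] at this
  omega

theorem tbc_tr {X0 X1 d : ℤ} {F1 F2 : Finset Edg}
    (h1 : ∀ e : Edg, e ∈ F1 → ¬ (e.2.1 = 0 ∧ e.2.2 = true) → e ∈ F2) (h : TBc X0 X1 0 d F1) :
    TBc X0 X1 0 d F2 := by
  obtain ⟨y, y', a1, a2, a3⟩ := h
  refine ⟨y, y', a1, a2, a3.mono ?_⟩
  rintro ⟨x, y, b⟩ ⟨e1, e2⟩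
  refine ⟨?_, e2⟩
  rw [Finset.mem_coe] at e1 e2 ⊢
  refine h1 _ e1 ?_
  rintro ⟨e3, e4⟩
  simp only at e3 e4
  subst e4
  rw [mem_TBE_true] at e2
  omega

end Run7.h537.HF
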